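import Mathlib

/-!
# Lie algebras of similitudes are determined by their classes in degree four
-/

set_option autoImplicit false

namespace Pool.Agent.MT24

variable {K T : Type*} [Field K] [AddCommGroup T] [Module K T]

/-- `f`, an alternating form on `T ^ k` with `2 j` arguments, is an eigenvector of the
endomorphism `x` (acting as a derivation), with eigenvalue `j κ`. -/
def IsClass (κ : K) (x : Module.End K T) (j k : ℕ) (f : (Fin k → T) [⋀^Fin (2 * j)]→ₗ[K] K) :
    Prop :=
  ∀ w : Fin (2 * j) → Fin k → T,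
    ∑ i, f (Function.update w i (fun a => x (w i a))) = (j * κ) * f w

/-- the endomorphism `u ↦ ψ(a,u) b` -/
def ee (ψ : T →ₗ[K] T →ₗ[K] K) (a b : T) : Module.End K T := (ψ a).smulRight b

theorem ee_apply (ψ : T →ₗ[K] T →ₗ[K] K) (a b u : T) : ee ψ a b u = ψ a u • b := rfl

theorem ee_add_left (ψ : T →ₗ[K] T →ₗ[K] K) (a a' b : T) :
    ee ψ (a + a') b = ee ψ a b + ee ψ a' b := by
  ext u
  simp [ee_apply, add_smul]

theorem ee_add_right (ψ : T →ₗ[K] T →ₗ[K] K) (a b b' : T) :
    ee ψ a (b + b') = ee ψ a b + ee ψ a b' := by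
  ext u
  simp [ee_apply]

theorem ee_smul_left (ψ : T →ₗ[K] T →ₗ[K] K) (c : K) (a b : T) :
    ee ψ (c • a) b = c • ee ψ a b := by
  ext u
  simp [ee_apply, mul_smul]

theorem ee_smul_right (ψ : T →ₗ[K] T →ₗ[K] K) (c : K) (a b : T) :
    ee ψ a (c • b) = c • ee ψ a b := by
  ext u
  simp [ee_apply, smul_comm c]

/-- the four-linear form attached to a linear map of `End T` -/
def form (ψ : T →ₗ[K] T →ₗ[K] K) (P : Module.End K T →ₗ[K] Module.End K T) :
    MultilinearMap K (fun _ : Fin 4 => T) K where
  toFun t := ψ (P (ee ψ (t 0) (t 1)) (t 2)) (t 3)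
  map_update_add' := by
    intro inst m i x y
    obtain rfl : inst = instDecidableEqFin 4 := Subsingleton.elim _ _
    fin_cases i <;> simp [ee_add_left, ee_add_right]
  map_update_smul' := by
    intro inst m i c x
    obtain rfl : inst = instDecidableEqFin 4 := Subsingleton.elim _ _
    fin_cases i <;> simp [ee_smul_left, ee_smul_right]

theorem form_apply (ψ : T →ₗ[K] T →ₗ[K] K) (P : Module.End K T →ₗ[K] Module.End K T)
    (t : Fin 4 → T) : form ψ P t = ψ (P (ee ψ (t 0) (t 1)) (t 2)) (t 3) := rfl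

/-- the alternating form on `T ^ 4` attached to a four-linear form -/
def alt (F : MultilinearMap K (fun _ : Fin 4 => T) K) : (Fin 4 → T) [⋀^Fin (2 * 2)]→ₗ[K] K :=
  MultilinearMap.alternatization (F.compLinearMap (fun i : Fin 4 => LinearMap.proj i))

theorem alt_apply (F : MultilinearMap K (fun _ : Fin 4 => T) K) (w : Fin 4 → Fin 4 → T) :
    alt F w = ∑ σ : Equiv.Perm (Fin 4), Equiv.Perm.sign σ • F (fun l => w (σ l) l) := by
  unfold alt
  rw [MultilinearMap.alternatization_apply]
  rfl

theorem alt_single (F : MultilinearMap K (fun _ : Fin 4 => T) K) (t : Fin 4 → T) :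
    alt F (fun i => Pi.single i (t i)) = F t := by
  rw [alt_apply, Finset.sum_eq_single 1]
  · simp
  · intro σ _ hσ
    obtain ⟨l, hl⟩ : ∃ l, σ l ≠ l := by
      by_contra h
      push Not at h
      exact hσ (Equiv.ext h)
    have h1 : F (fun l => (Pi.single (σ l) (t (σ l)) : Fin 4 → T) l) = 0 := by
      apply F.map_coord_zero l
      show (Pi.single (σ l) (t (σ l)) : Fin 4 → T) l = 0
      rw [Pi.single_eq_of_ne (Ne.symm hl)]
    rw [h1, smul_zero]
  · intro h
    exact absurd (Finset.mem_univ _) h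

/-- a derivation identity for `F` gives one for `alt F` -/
theorem alt_class (F : MultilinearMap K (fun _ : Fin 4 => T) K) (x : Module.End K T) (κ : K)
    (h : ∀ t : Fin 4 → T, ∑ i, F (Function.update t i (x (t i))) = 2 * κ * F t) :
    IsClass κ x 2 4 (alt F) := by
  intro w
  show ∑ i : Fin 4, alt F (Function.update w i (fun a => x (w i a))) = _
  simp_rw [alt_apply]
  rw [Finset.sum_comm, Finset.mul_sum]
  refine Finset.sum_congr rfl (fun σ _ => ?_)
  rw [← Finset.smul_sum, mul_smul_comm]
  congr 1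
  have h1 := h (fun l => w (σ l) l)
  rw [show (((2 : ℕ) : K)) = 2 by norm_num, ← h1]
  rw [← Equiv.sum_comp σ]
  refine Finset.sum_congr rfl (fun i _ => ?_)
  congr 1
  funext l
  by_cases hl : l = i
  · subst hl
    simp
  · rw [Function.update_of_ne hl, Function.update_of_ne]
    exact fun h => hl (σ.injective h)

/-- and conversely -/
theorem class_alt (F : MultilinearMap K (fun _ : Fin 4 => T) K) (x : Module.End K T) (κ : K)
    (h : IsClass κ x 2 4 (alt F)) (t : Fin 4 → T) :
    ∑ i, F (Function.update t i (x (t i))) = 2 * κ * F t := by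
  have h1 := h (fun i : Fin 4 => (Pi.single i (t i) : Fin 4 → T))
  rw [show (((2 : ℕ) : K)) = 2 by norm_num, alt_single] at h1
  rw [← h1]
  show _ = ∑ i : Fin 4, _
  refine Finset.sum_congr rfl (fun i _ => ?_)
  rw [← alt_single]
  congr 1
  funext l
  by_cases hl : l = i
  · subst hl
    rw [Function.update_self, Function.update_self]
    funext a
    by_cases ha : a = l
    · subst ha
      simp
    · rw [Pi.single_eq_of_ne ha, Pi.single_eq_of_ne ha, map_zero]
  · rw [Function.update_of_ne hl, Function.update_of_ne hl]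

section Form

variable {ψ : T →ₗ[K] T →ₗ[K] K} {κ : K} {x : Module.End K T}

theorem comm_ee (hx : ∀ u v, ψ (x u) v + ψ u (x v) = κ * ψ u v) (a b : T) :
    x * ee ψ a b - ee ψ a b * x = ee ψ a (x b) + ee ψ (x a) b - κ • ee ψ a b := by
  ext u
  have h := hx a u
  simp only [LinearMap.sub_apply, LinearMap.add_apply, Module.End.mul_apply, ee_apply,
    LinearMap.smul_apply, map_smul]
  rw [show ψ a (x u) = κ * ψ a u - ψ (x a) u by rw [← h]; ring]
  module

/-- the derivation identity of the form attached to `P` -/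
theorem form_deriv (hx : ∀ u v, ψ (x u) v + ψ u (x v) = κ * ψ u v)
    (P : Module.End K T →ₗ[K] Module.End K T) (t : Fin 4 → T) :
    ∑ i, form ψ P (Function.update t i (x (t i))) = 2 * κ * form ψ P t +
      ψ ((P (x * ee ψ (t 0) (t 1) - ee ψ (t 0) (t 1) * x) -
        (x * P (ee ψ (t 0) (t 1)) - P (ee ψ (t 0) (t 1)) * x)) (t 2)) (t 3) := by
  rw [comm_ee hx]
  simp only [Fin.sum_univ_four, form_apply]
  have h := hx (P (ee ψ (t 0) (t 1)) (t 2)) (t 3)
  simp [LinearMap.sub_apply, LinearMap.add_apply, Module.End.mul_apply]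
  linear_combination h

theorem form_class (hx : ∀ u v, ψ (x u) v + ψ u (x v) = κ * ψ u v)
    (P : Module.End K T →ₗ[K] Module.End K T) (hP : ∀ E, P (x * E - E * x) = x * P E - P E * x) :
    IsClass κ x 2 4 (alt (form ψ P)) := by
  apply alt_class
  intro t
  rw [form_deriv hx, hP, sub_self, LinearMap.zero_apply, map_zero, LinearMap.zero_apply, add_zero]

end Form

end Pool.Agent.MT24
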