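import Mathlib
import Pool.Agent.MT24.Basic

/-!
# Equality in degree four implies equality of the Lie algebras
-/

set_option autoImplicit false

namespace Pool.Agent.MT24

variable {K T : Type*} [Field K] [AddCommGroup T] [Module K T] [FiniteDimensional K T]
  {ψ : T →ₗ[K] T →ₗ[K] K}

theorem ee_span (hnd : ∀ u, (∀ v, ψ u v = 0) → u = 0)
    (Q : Module.End K T →ₗ[K] Module.End K T) (hQ : ∀ a b, Q (ee ψ a b) = 0) : Q = 0 := by
  have hinj : Function.Injective ψ := by
    rw [injective_iff_map_eq_zero]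
    intro u hu
    exact hnd u (fun v => by rw [hu]; rfl)
  have hsurj : Function.Surjective ψ := by
    have h1 : Module.finrank K T = Module.finrank K (Module.Dual K T) :=
      Subspace.dual_finrank_eq.symm
    exact (LinearMap.injective_iff_surjective_of_finrank_eq_finrank h1).1 hinj
  let b := Module.finBasis K T
  ext1 E
  have h2 : E = ∑ i, (b.coord i).smulRight (E (b i)) := by
    apply b.ext
    intro j
    rw [LinearMap.sum_apply, Finset.sum_eq_single j]
    · simp
    · intro i _ hi
      simp [Ne.symm hi]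
    · intro h
      exact absurd (Finset.mem_univ _) h
  rw [h2, map_sum, LinearMap.zero_apply]
  refine Finset.sum_eq_zero (fun i _ => ?_)
  obtain ⟨a, ha⟩ := hsurj (b.coord i)
  have := hQ a (E (b i))
  rw [ee, ha] at this
  exact this

/-- commutation with `x` read off from the class -/
theorem comm_of_class {κ : K} {x : Module.End K T}
    (hnd : ∀ u, (∀ v, ψ u v = 0) → u = 0)
    (hx : ∀ u v, ψ (x u) v + ψ u (x v) = κ * ψ u v)
    (P : Module.End K T →ₗ[K] Module.End K T) (h : IsClass κ x 2 4 (alt (form ψ P))) :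
    ∀ E, P (x * E - E * x) = x * P E - P E * x := by
  have h1 : ∀ a b, P (x * ee ψ a b - ee ψ a b * x) - (x * P (ee ψ a b) - P (ee ψ a b) * x) = 0 := by
    intro a b
    ext c
    rw [LinearMap.zero_apply]
    apply hnd
    intro d
    have h2 := class_alt _ _ _ h ![a, b, c, d]
    rw [form_deriv hx] at h2
    simpa using h2
  let adx : Module.End K T →ₗ[K] Module.End K T :=
    LinearMap.mulLeft K x - LinearMap.mulRight K x
  have h3 : P ∘ₗ adx - adx ∘ₗ P = 0 := by
    apply ee_span hnd
    intro a b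
    have := h1 a b
    simpa [adx] using this
  intro E
  have h4 := LinearMap.congr_fun h3 E
  have h5 : P (x * E - E * x) - (x * P E - P E * x) = 0 := by simpa [adx] using h4
  exact sub_eq_zero.1 h5

/-- linear maps commuting with `g` commute with `m` -/
theorem comm_transfer {g m : Submodule K (Module.End K T)} {κ : Module.End K T → K}
    (hnd : ∀ u, (∀ v, ψ u v = 0) → u = 0) (hgm : g ≤ m)
    (hκ : ∀ x ∈ m, ∀ u v, ψ (x u) v + ψ u (x v) = κ x * ψ u v)
    (h24 : ∀ f, (∀ x ∈ g, IsClass (κ x) x 2 4 f) → ∀ x ∈ m, IsClass (κ x) x 2 4 f)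
    (P : Module.End K T →ₗ[K] Module.End K T)
    (hP : ∀ x ∈ g, ∀ E, P (x * E - E * x) = x * P E - P E * x) :
    ∀ x ∈ m, ∀ E, P (x * E - E * x) = x * P E - P E * x := by
  intro x hx
  apply comm_of_class hnd (hκ x hx)
  apply h24 _ _ x hx
  intro y hy
  exact form_class (hκ y (hgm hy)) P (hP y hy)

/-- the projection to `g` along the orthogonal complement for the trace form -/
theorem exists_proj (g : Submodule K (Module.End K T))
    (hlie : ∀ a ∈ g, ∀ b ∈ g, a * b - b * a ∈ g)
    (htr : ∀ x ∈ g, (∀ y ∈ g, LinearMap.trace K T (x * y) = 0) → x = 0) :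
    ∃ P : Module.End K T →ₗ[K] Module.End K T, (∀ E, P E ∈ g) ∧ (∀ x ∈ g, P x = x) ∧
      ∀ x ∈ g, ∀ E, P (x * E - E * x) = x * P E - P E * x := by
  -- the map `End T → g^*`
  let τ : Module.End K T →ₗ[K] Module.Dual K g :=
    { toFun := fun E => (LinearMap.trace K T) ∘ₗ (LinearMap.mulLeft K E) ∘ₗ g.subtype
      map_add' := fun E F => by ext y; simp [add_mul]
      map_smul' := fun c E => by ext y; simp }
  have hτ : ∀ E (y : g), τ E y = LinearMap.trace K T (E * y.1) := fun E y => rfl
  have hinj : Function.Injective (τ ∘ₗ g.subtype) := by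
    rw [injective_iff_map_eq_zero]
    intro x hx
    apply Subtype.ext
    exact htr x.1 x.2 (fun y hy => by
      have := LinearMap.congr_fun hx ⟨y, hy⟩
      exact this)
  have h1 : Module.finrank K g = Module.finrank K (Module.Dual K g) :=
    Subspace.dual_finrank_eq.symm
  have hsurj := (LinearMap.injective_iff_surjective_of_finrank_eq_finrank h1).1 hinj
  let e : g ≃ₗ[K] Module.Dual K g := LinearEquiv.ofBijective (τ ∘ₗ g.subtype) ⟨hinj, hsurj⟩
  have he : ∀ x : g, e x = τ x.1 := fun x => rfl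
  let P : Module.End K T →ₗ[K] Module.End K T := g.subtype ∘ₗ e.symm.toLinearMap ∘ₗ τ
  have hP : ∀ E, P E ∈ g := fun E => (e.symm (τ E)).2
  have hPτ : ∀ E, ∀ y ∈ g, LinearMap.trace K T (P E * y) = LinearMap.trace K T (E * y) := by
    intro E y hy
    have h2 : τ (P E) = τ E := by
      show τ ((e.symm (τ E)).1) = τ E
      rw [← he, LinearEquiv.apply_symm_apply]
    exact LinearMap.congr_fun h2 ⟨y, hy⟩
  have huniq : ∀ E, ∀ x ∈ g, (∀ y ∈ g, LinearMap.trace K T (x * y) = LinearMap.trace K T (E * y)) →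
      P E = x := by
    intro E x hx h
    apply sub_eq_zero.1
    apply htr _ (g.sub_mem (hP E) hx)
    intro y hy
    rw [sub_mul, map_sub, hPτ E y hy, h y hy, sub_self]
  refine ⟨P, hP, fun x hx => huniq x x hx (fun y _ => rfl), ?_⟩
  intro x hx E
  apply huniq
  · exact hlie x hx _ (hP E)
  · intro y hy
    have h3 := hPτ E _ (hlie y hy x hx)
    have c1 : LinearMap.trace K T (P E * (y * x - x * y)) =
        LinearMap.trace K T ((x * P E - P E * x) * y) := by
      rw [mul_sub, sub_mul, map_sub, map_sub, ← mul_assoc, LinearMap.trace_mul_comm K (P E * y) x]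
      simp only [mul_assoc]
    have c2 : LinearMap.trace K T (E * (y * x - x * y)) =
        LinearMap.trace K T ((x * E - E * x) * y) := by
      rw [mul_sub, sub_mul, map_sub, map_sub, ← mul_assoc, LinearMap.trace_mul_comm K (E * y) x]
      simp only [mul_assoc]
    rw [← c1, ← c2, h3]

/-- **Main step.** -/
theorem decomp {g m : Submodule K (Module.End K T)} {κ : Module.End K T → K}
    (hnd : ∀ u, (∀ v, ψ u v = 0) → u = 0) (hgm : g ≤ m)
    (hlie : ∀ a ∈ g, ∀ b ∈ g, a * b - b * a ∈ g)
    (htr : ∀ x ∈ g, (∀ y ∈ g, LinearMap.trace K T (x * y) = 0) → x = 0)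
    (hκ : ∀ x ∈ m, ∀ u v, ψ (x u) v + ψ u (x v) = κ x * ψ u v)
    (h24 : ∀ f, (∀ x ∈ g, IsClass (κ x) x 2 4 f) → ∀ x ∈ m, IsClass (κ x) x 2 4 f) :
    ∀ x ∈ m, ∃ y ∈ g, ∀ z ∈ m, (x - y) * z = z * (x - y) := by
  obtain ⟨P, hPg, hPid, hPc⟩ := exists_proj g hlie htr
  have hPm := comm_transfer hnd hgm hκ h24 P hPc
  intro x hx
  refine ⟨P x, hPg x, ?_⟩
  set z := x - P x with hz
  have hzm : z ∈ m := m.sub_mem hx (hgm (hPg x))
  have hPz : P z = 0 := by rw [hz, map_sub, hPid _ (hPg x), sub_self]
  -- `z` commutes with `g`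
  have h1 : ∀ y ∈ g, y * z - z * y = 0 := by
    intro y hy
    have a1 : z * y - y * z ∈ g := by
      have := hPm z hzm y
      rw [hPid y hy] at this
      rw [← this]
      exact hPg _
    have a2 := hPm y (hgm hy) z
    rw [hPz, mul_zero, zero_mul, sub_zero] at a2
    have a3 : y * z - z * y ∈ g := by
      have := g.neg_mem a1
      rwa [neg_sub] at this
    rw [← hPid _ a3, a2]
  -- left multiplication by `z`
  have h2 := comm_transfer hnd hgm hκ h24 (LinearMap.mulLeft K z) (by
    intro y hy E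
    simp only [LinearMap.mulLeft_apply]
    have := h1 y hy
    have h3 : y * z = z * y := sub_eq_zero.1 this
    rw [mul_sub, ← mul_assoc, ← mul_assoc, ← h3, mul_assoc, mul_assoc])
  intro w hw
  have h3 := h2 w hw 1
  simp only [LinearMap.mulLeft_apply, mul_one, one_mul, sub_self, mul_zero] at h3
  exact (sub_eq_zero.1 h3.symm).symm

end Pool.Agent.MT24
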