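import Mathlib
import Pool.Agent.MT24.Main

set_option autoImplicit false

namespace Pool.Agent.Results.MP_6c781a_ag.DegreeFour

variable {K T : Type*} [Field K] [AddCommGroup T] [Module K T]

/-- The endomorphism `x` of `T` acts diagonally on `T ^ k` and as a derivation on alternating
forms; the alternating form `f` on `T ^ k` with `2 j` arguments is an eigenvector with eigenvalue
`j κ`. -/
def IsClass (κ : K) (x : Module.End K T) (j k : ℕ) (f : (Fin k → T) [⋀^Fin (2 * j)]→ₗ[K] K) :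
    Prop :=
  ∀ w : Fin (2 * j) → Fin k → T,
    ∑ i, f (Function.update w i (fun a => x (w i a))) = (j * κ) * f w

/-- Every alternating form on `T ^ k` with `2 j` arguments that is a class for all elements of `g`
is a class for all elements of `m`. -/
def SameClasses (g m : Submodule K (Module.End K T)) (κ : Module.End K T → K) (j k : ℕ) : Prop :=
  ∀ f : (Fin k → T) [⋀^Fin (2 * j)]→ₗ[K] K,
    (∀ x ∈ g, IsClass (κ x) x j k f) → ∀ x ∈ m, IsClass (κ x) x j k f

/-- Equality of the classes of bidegree `(2, 4)` implies equality of all classes. -/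
theorem result [FiniteDimensional K T] (ψ : T →ₗ[K] T →ₗ[K] K)
    (hψ : ∀ u, (∀ v, ψ u v = 0) → u = 0)
    (g m : Submodule K (Module.End K T)) (hgm : g ≤ m)
    (hlie : ∀ a ∈ g, ∀ b ∈ g, a * b - b * a ∈ g)
    (htr : ∀ x ∈ g, (∀ y ∈ g, LinearMap.trace K T (x * y) = 0) → x = 0)
    (κ : Module.End K T → K) (hκ : ∀ x ∈ m, ∀ u v, ψ (x u) v + ψ u (x v) = κ x * ψ u v) :
    (SameClasses g m κ 2 4 → ∀ x ∈ m, ∃ y ∈ g, ∀ z ∈ m, (x - y) * z = z * (x - y)) ∧
    ((∀ z ∈ m, (∀ x ∈ m, z * x = x * z) → z ∈ g) →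
      [SameClasses g m κ 2 4, ∀ j k, SameClasses g m κ j k, m = g].TFAE) := by
  have h1 : SameClasses g m κ 2 4 →
      ∀ x ∈ m, ∃ y ∈ g, ∀ z ∈ m, (x - y) * z = z * (x - y) := fun h =>
    Pool.Agent.MT24.decomp hψ hgm hlie htr hκ h
  refine ⟨h1, fun hz => ?_⟩
  tfae_have 1 → 3 := by
    intro h
    refine le_antisymm (fun x hx => ?_) hgm
    obtain ⟨y, hy, hc⟩ := h1 h x hx
    have h2 : x - y ∈ g := hz _ (m.sub_mem hx (hgm hy)) hc
    have h3 := g.add_mem h2 hy
    rwa [sub_add_cancel] at h3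
  tfae_have 3 → 2 := by
    rintro rfl j k f hf
    exact hf
  tfae_have 2 → 1 := fun h => h 2 4
  tfae_finish

end Pool.Agent.Results.MP_6c781a_ag.DegreeFour
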